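import Mathlib

/-!
# A finitely generated central algebra with commutative, non-Noetherian proper centralizers

Let `R = K[x, y]` and let `A` be the algebra of `2 × 2` matrices over `R` generated by
`(x, x; 0, 0)` and `(y, 0; 0, 0)`.  It consists of the matrices `(c + r, α; 0, c)` with `c ∈ K`,
`r(0, 0) = 0`, `α(x, 0) = r(x, 0)` and `α(0, y) = 0`.  Two such matrices commute if and only if
`r β = s α`.  So the centralizer of a matrix with `r ≠ 0` is isomorphic to `K + f R` for a nonzero
`f` without constant term, and the centralizer of a non-scalar matrix with `r = 0` is `K + N` with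
an ideal `N` of infinite dimension and square zero.
-/

set_option autoImplicit false


namespace Pool.Agent.Results.MP_dbb1e7_al.NoNoetherian

open Polynomial

universe u

noncomputable section

variable {K : Type*} [Field K]

/-- the matrix `(r, α; 0, 0)` -/
def N (r α : K[X][X]) : Matrix (Fin 2) (Fin 2) K[X][X] := !![r, α; 0, 0]

/-- the general matrix `(c + r, α; 0, c)` -/
def Mt (c : K) (r α : K[X][X]) : Matrix (Fin 2) (Fin 2) K[X][X] := !![C (C c) + r, α; 0, C (C c)]

/-- restriction to the line `y = 0` -/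
def e0 : K[X][X] →+* K[X] := evalRingHom 0

/-- restriction to the line `x = 0` -/
def ex : K[X][X] →+* K[X] := mapRingHom (evalRingHom 0)

/-- the conditions on the first row -/
def Ok (r α : K[X][X]) : Prop := (e0 r).eval 0 = 0 ∧ e0 α = e0 r ∧ ex α = 0

/-- the algebra generated by `(x, x; 0, 0)` and `(y, 0; 0, 0)` -/
def A (K : Type*) [Field K] : Subalgebra K (Matrix (Fin 2) (Fin 2) K[X][X]) :=
  Algebra.adjoin K {N (C X) (C X), N X 0}

theorem N_mul (r α s β : K[X][X]) : N r α * N s β = N (r * s) (r * β) := by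
  rw [N, N, N, Matrix.mul_fin_two]
  have e1 : r * s + α * 0 = r * s := by ring
  have e2 : r * β + α * 0 = r * β := by ring
  have e3 : (0 : K[X][X]) * s + 0 * 0 = 0 := by ring
  have e4 : (0 : K[X][X]) * β + 0 * 0 = 0 := by ring
  rw [e1, e2, e3, e4]

theorem N_add (r α s β : K[X][X]) : N r α + N s β = N (r + s) (α + β) := by
  ext i j
  fin_cases i <;> fin_cases j <;> simp [N]

theorem N_smul (c : K) (r α : K[X][X]) : c • N r α = N (c • r) (c • α) := by
  ext i j
  fin_cases i <;> fin_cases j <;> simp [N]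

theorem Mt_eq (c : K) (r α : K[X][X]) :
    Mt c r α = algebraMap K (Matrix (Fin 2) (Fin 2) K[X][X]) c + N r α := by
  ext i j
  fin_cases i <;> fin_cases j <;> simp [N, Mt, Matrix.algebraMap_matrix_apply,
    Polynomial.algebraMap_apply]

theorem Mt_mul (c d : K) (r α s β : K[X][X]) :
    Mt c r α * Mt d s β =
      Mt (c * d) (C (C c) * s + C (C d) * r + r * s) ((C (C c) + r) * β + C (C d) * α) := by
  rw [Mt, Mt, Mt, Matrix.mul_fin_two]
  have e1 : (C (C c) + r) * (C (C d) + s) + α * 0 =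
      C (C (c * d)) + (C (C c) * s + C (C d) * r + r * s) := by
    rw [C_mul, C_mul]
    ring
  have e2 : (C (C c) + r) * β + α * C (C d) = (C (C c) + r) * β + C (C d) * α := by ring
  have e3 : 0 * (C (C d) + s) + C (C c) * 0 = (0 : K[X][X]) := by ring
  have e4 : 0 * β + C (C c) * C (C d) = C (C (c * d)) := by
    rw [C_mul, C_mul]
    ring
  rw [e1, e2, e3, e4]

theorem Mt_inj {c d : K} {r α s β : K[X][X]} (h : Mt c r α = Mt d s β) :
    c = d ∧ r = s ∧ α = β := by
  have h1 := congrFun (congrFun h 1) 1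
  have h2 := congrFun (congrFun h 0) 0
  have h3 := congrFun (congrFun h 0) 1
  simp only [Mt, Matrix.of_apply, Matrix.cons_val', Matrix.cons_val_one, Matrix.cons_val_zero,
    Matrix.cons_val_fin_one] at h1 h2 h3
  have h4 : c = d := C_injective (C_injective h1)
  subst h4
  exact ⟨rfl, add_left_cancel h2, h3⟩

theorem Ok.mul {c d : K} {r α s β : K[X][X]} (h : Ok r α) (h' : Ok s β) :
    Ok (C (C c) * s + C (C d) * r + r * s) ((C (C c) + r) * β + C (C d) * α) := by
  obtain ⟨h1, h2, h3⟩ := h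
  obtain ⟨h1', h2', h3'⟩ := h'
  refine ⟨?_, ?_, ?_⟩
  · simp only [map_add, map_mul, eval_add, eval_mul, h1, h1']
    ring
  · simp only [map_add, map_mul, h2, h2']
    ring
  · simp only [map_add, map_mul, h3, h3']
    ring

/-- the algebra of all matrices of the given shape -/
def T (K : Type*) [Field K] : Subalgebra K (Matrix (Fin 2) (Fin 2) K[X][X]) where
  carrier := {M | ∃ (c : K) (r α : K[X][X]), M = Mt c r α ∧ Ok r α}
  mul_mem' := by
    rintro _ _ ⟨c, r, α, rfl, h⟩ ⟨d, s, β, rfl, h'⟩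
    exact ⟨_, _, _, Mt_mul c d r α s β, h.mul h'⟩
  add_mem' := by
    rintro _ _ ⟨c, r, α, rfl, h⟩ ⟨d, s, β, rfl, h'⟩
    refine ⟨c + d, r + s, α + β, ?_, ?_, ?_, ?_⟩
    · rw [Mt_eq, Mt_eq, Mt_eq, ← N_add, map_add]
      abel
    · simp only [map_add, eval_add, h.1, h'.1, add_zero]
    · simp only [map_add, h.2.1, h'.2.1]
    · simp only [map_add, h.2.2, h'.2.2, add_zero]
  algebraMap_mem' := by
    intro c
    refine ⟨c, 0, 0, ?_, ?_, ?_, ?_⟩
    · rw [Mt_eq]
      have : N (0 : K[X][X]) 0 = 0 := by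
        ext i j
        fin_cases i <;> fin_cases j <;> simp [N]
      rw [this, add_zero]
    · simp
    · simp
    · simp

theorem A_le : A K ≤ T K := by
  refine Algebra.adjoin_le ?_
  rintro M (rfl | rfl)
  · refine ⟨0, C X, C X, ?_, ?_, rfl, ?_⟩
    · rw [Mt_eq, map_zero, zero_add]
    · simp [e0]
    · simp [ex]
  · refine ⟨0, X, 0, ?_, ?_, ?_, ?_⟩
    · rw [Mt_eq, map_zero, zero_add]
    · simp [e0]
    · simp [e0]
    · simp

theorem gen (U : Submodule K K[X][X]) (hx : ∀ u ∈ U, C X * u ∈ U) (hy : ∀ u ∈ U, X * u ∈ U)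
    (u : K[X][X]) (hu : u ∈ U) (q : K[X][X]) : q * u ∈ U := by
  have h1 : ∀ (m : ℕ) (v : K[X][X]), v ∈ U → C (X ^ m) * v ∈ U := by
    intro m
    induction m with
    | zero => intro v hv; simpa using hv
    | succ m ih =>
      intro v hv
      have := ih _ (hx v hv)
      rwa [← mul_assoc, ← C_mul, ← pow_succ] at this
  have h2 : ∀ (m : ℕ) (v : K[X][X]), v ∈ U → (X : K[X][X]) ^ m * v ∈ U := by
    intro m
    induction m with
    | zero => intro v hv; simpa using hv
    | succ m ih =>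
      intro v hv
      have := ih _ (hy v hv)
      rwa [← mul_assoc, ← pow_succ] at this
  have h3 : ∀ (p : K[X]) (v : K[X][X]), v ∈ U → C p * v ∈ U := by
    intro p
    induction p using Polynomial.induction_on' with
    | add p q hp hq =>
      intro v hv
      rw [C_add, add_mul]
      exact U.add_mem (hp v hv) (hq v hv)
    | monomial n a =>
      intro v hv
      have h4 := U.smul_mem a (h1 n v hv)
      rw [← C_mul_X_pow_eq_monomial]
      have h5 : C (C a * X ^ n) * v = a • (C (X ^ n) * v) := by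
        rw [C_mul, mul_assoc, Algebra.smul_def]
        rfl
      rw [h5]
      exact h4
  induction q using Polynomial.induction_on' with
  | add p q hp hq =>
    rw [add_mul]
    exact U.add_mem hp hq
  | monomial n a =>
    rw [← C_mul_X_pow_eq_monomial, mul_assoc]
    exact h3 a _ (h2 n u hu)

theorem X_mem : N (C X) (C X) ∈ A K := Algebra.subset_adjoin (by simp)

theorem Y_mem : N X 0 ∈ A K := Algebra.subset_adjoin (by simp)

theorem N1_mem (q : K[X][X]) : N (q * X) 0 ∈ A K := by
  let U : Submodule K K[X][X] :=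
    { carrier := {u | N u 0 ∈ A K}
      add_mem' := by
        intro u v hu hv
        have := (A K).add_mem hu hv
        rwa [N_add, add_zero] at this
      zero_mem' := by
        have := (A K).zero_mem
        have h0 : N (0 : K[X][X]) 0 = 0 := by
          ext i j
          fin_cases i <;> fin_cases j <;> simp [N]
        rw [Set.mem_ofPred_eq, h0]
        exact this
      smul_mem' := by
        intro c u hu
        have := (A K).smul_mem hu c
        rwa [N_smul, smul_zero] at this }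
  refine gen U ?_ ?_ X Y_mem q
  · intro u hu
    have := (A K).mul_mem X_mem hu
    rwa [N_mul, mul_zero] at this
  · intro u hu
    have := (A K).mul_mem Y_mem hu
    rwa [N_mul, mul_zero] at this

theorem N2_mem (q : K[X][X]) : N 0 (q * (C X * X)) ∈ A K := by
  let U : Submodule K K[X][X] :=
    { carrier := {u | N 0 u ∈ A K}
      add_mem' := by
        intro u v hu hv
        have := (A K).add_mem hu hv
        rwa [N_add, add_zero] at this
      zero_mem' := by
        have := (A K).zero_mem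
        have h0 : N (0 : K[X][X]) 0 = 0 := by
          ext i j
          fin_cases i <;> fin_cases j <;> simp [N]
        rw [Set.mem_ofPred_eq, h0]
        exact this
      smul_mem' := by
        intro c u hu
        have := (A K).smul_mem hu c
        rwa [N_smul, smul_zero] at this }
  refine gen U ?_ ?_ (C X * X) ?_ q
  · intro u hu
    have := (A K).mul_mem X_mem hu
    rwa [N_mul, mul_zero] at this
  · intro u hu
    have := (A K).mul_mem Y_mem hu
    rwa [N_mul, mul_zero] at this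
  · have h1 := (A K).sub_mem ((A K).mul_mem Y_mem X_mem) ((A K).mul_mem X_mem Y_mem)
    have h2 : N (X : K[X][X]) 0 * N (C X) (C X) - N (C X) (C X) * N X 0 = N 0 (C X * X) := by
      rw [N_mul, N_mul, sub_eq_iff_eq_add, N_add, zero_add, mul_zero, add_zero,
        mul_comm (X : K[X][X]) (C X)]
    rw [h2] at h1
    exact h1

theorem N3_mem (p : K[X]) : N (C (p * X)) (C (p * X)) ∈ A K := by
  induction p using Polynomial.induction_on' with
  | add p q hp hq =>
    have := (A K).add_mem hp hq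
    rwa [N_add, ← C_add, ← add_mul] at this
  | monomial n a =>
    have h1 : ∀ m : ℕ, N (C (X ^ m * X)) (C (X ^ m * X)) ∈ A K := by
      intro m
      induction m with
      | zero => simpa using X_mem
      | succ m ih =>
        have := (A K).mul_mem X_mem ih
        rw [N_mul, ← C_mul] at this
        have h2 : (X : K[X]) * (X ^ m * X) = X ^ (m + 1) * X := by ring
        rwa [h2] at this
    have h3 := (A K).smul_mem (h1 n) a
    rw [N_smul] at h3
    have h4 : a • C (X ^ n * X : K[X]) = C (monomial n a * X) := by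
      rw [← C_mul_X_pow_eq_monomial, mul_assoc, Algebra.smul_def]
      exact C_mul.symm
    rwa [h4] at h3

theorem exists_of_ex {q : K[X][X]} (h : ex q = 0) : ∃ q' : K[X][X], q = q' * C X := by
  have h1 : C X ∣ q := by
    rw [C_dvd_iff_dvd_coeff]
    intro i
    rw [X_dvd_iff, coeff_zero_eq_eval_zero]
    have := congrArg (fun p => coeff p i) h
    simpa [ex] using this
  obtain ⟨q', hq'⟩ := h1
  exact ⟨q', by rw [hq', mul_comm]⟩

theorem exists_of_e0 {q : K[X][X]} (h : e0 q = 0) : ∃ q' : K[X][X], q = q' * X := by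
  have h1 : X ∣ q := by
    rw [X_dvd_iff, coeff_zero_eq_eval_zero]
    exact h
  obtain ⟨q', hq'⟩ := h1
  exact ⟨q', by rw [hq', mul_comm]⟩

theorem e0_C (p : K[X]) : e0 (C p) = p := by
  rw [e0, coe_evalRingHom, eval_C]

theorem ex_C (p : K[X]) : ex (C p) = C (p.eval 0) := by
  rw [ex, coe_mapRingHom, map_C, coe_evalRingHom]

theorem e0_X : e0 (X : K[X][X]) = 0 := by
  rw [e0, coe_evalRingHom, eval_X]

theorem ex_X : ex (X : K[X][X]) = X := by
  rw [ex, coe_mapRingHom, map_X]

theorem N_mem {r α : K[X][X]} (h : Ok r α) : N r α ∈ A K := by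
  obtain ⟨h1, h2, h3⟩ := h
  obtain ⟨p, hp⟩ : ∃ p : K[X], e0 r = p * X := by
    have : X ∣ e0 r := by rw [X_dvd_iff, coeff_zero_eq_eval_zero]; exact h1
    obtain ⟨p, hp⟩ := this
    exact ⟨p, by rw [hp, mul_comm]⟩
  obtain ⟨r1, hr1⟩ : ∃ r1 : K[X][X], r - C (e0 r) = r1 * X :=
    exists_of_e0 (by rw [map_sub, e0_C, sub_self])
  obtain ⟨a1, ha1⟩ : ∃ a1 : K[X][X], α - C (e0 r) = a1 * X :=
    exists_of_e0 (by rw [map_sub, e0_C, h2, sub_self])
  have h4 : ex a1 = 0 := by
    have := congrArg ex ha1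
    rw [map_sub, h3, ex_C, h1, map_mul, ex_X, map_zero, sub_zero] at this
    exact (mul_eq_zero.1 this.symm).resolve_right X_ne_zero
  obtain ⟨a2, ha2⟩ := exists_of_ex h4
  have h5 := (A K).add_mem ((A K).add_mem (N3_mem p) (N1_mem r1)) (N2_mem a2)
  rw [N_add, N_add, ← hp] at h5
  have h6 : C (e0 r) + r1 * X + 0 = r := by rw [← hr1]; ring
  have h7 : C (e0 r) + 0 + a2 * (C X * X) = α := by
    rw [← mul_assoc, ← ha2, ← ha1]
    ring
  rwa [h6, h7] at h5

theorem mem_A {c : K} {r α : K[X][X]} (h : Ok r α) : Mt c r α ∈ A K := by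
  rw [Mt_eq]
  exact (A K).add_mem ((A K).algebraMap_mem c) (N_mem h)

theorem Mt_commute {c d : K} {r α s β : K[X][X]} :
    Mt c r α * Mt d s β = Mt d s β * Mt c r α ↔ r * β = s * α := by
  rw [Mt_mul, Mt_mul]
  constructor
  · intro h
    have h1 := (Mt_inj h).2.2
    linear_combination h1
  · intro h
    have h1 : c * d = d * c := mul_comm _ _
    have h2 : C (C c) * s + C (C d) * r + r * s = C (C d) * r + C (C c) * s + s * r := by ring
    have h3 : (C (C c) + r) * β + C (C d) * α = (C (C d) + s) * α + C (C c) * β := by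
      linear_combination h
    rw [h1, h2, h3]

/-- A commutative algebra `B` with an ideal `M` of codimension one such that `M / M ^ 2` has
infinite dimension is not Noetherian. -/
theorem not_noeth {B : Type*} [Semiring B] [Algebra K B]
    (M Q : Submodule K B) (hM : ∀ b : B, ∃ c : K, ∃ m ∈ M, b = algebraMap K B c + m)
    (hQM : Q ≤ M) (hQ : ∀ a ∈ M, ∀ b ∈ M, a * b ∈ Q) (e : ℕ → B) (he : ∀ k, e k ∈ M)
    (hind : ∀ (n : ℕ) (c : ℕ → K), ∀ q ∈ Q, e n ≠ ∑ i ∈ Finset.range n, c i • e i + q) :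
    ¬ IsNoetherianRing B := by
  intro hN
  let f : ℕ →o Submodule B B :=
    ⟨fun n => Submodule.span B (e '' {i | i < n}), by
      intro a b hab
      exact Submodule.span_mono (Set.image_mono fun i hi => lt_of_lt_of_le hi hab)⟩
  obtain ⟨n, hn⟩ := monotone_stabilizes_iff_noetherian.2 hN f
  have h1 : e n ∈ Submodule.span B (e '' {i | i < n}) := by
    have h0 : e n ∈ f (n + 1) := Submodule.subset_span ⟨n, Nat.lt_succ_self n, rfl⟩
    rw [← hn (n + 1) (Nat.le_succ n)] at h0
    exact h0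
  have h2 : ∀ x ∈ Submodule.span B (e '' {i | i < n}),
      x ∈ M ∧ ∃ c : ℕ → K, ∃ q ∈ Q, x = ∑ i ∈ Finset.range n, c i • e i + q := by
    intro x hx
    induction hx using Submodule.span_induction with
    | mem x hx =>
      obtain ⟨i, hi, rfl⟩ := hx
      refine ⟨he i, fun j => if j = i then 1 else 0, 0, Q.zero_mem, ?_⟩
      have : ∑ j ∈ Finset.range n, (if j = i then (1 : K) else 0) • e j = e i := by
        rw [Finset.sum_eq_single i]
        · simp
        · intro j _ hj
          simp [hj]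
        · intro h
          exact absurd (Finset.mem_range.2 hi) h
      rw [this, add_zero]
    | zero =>
      refine ⟨M.zero_mem, 0, 0, Q.zero_mem, ?_⟩
      simp
    | add x y hx hy ihx ihy =>
      obtain ⟨hx1, c, q, hq, hc'⟩ := ihx
      obtain ⟨hy1, d, q', hq', hd⟩ := ihy
      refine ⟨M.add_mem hx1 hy1, c + d, q + q', Q.add_mem hq hq', ?_⟩
      simp only [Pi.add_apply, add_smul, Finset.sum_add_distrib]
      rw [hc', hd]
      abel
    | smul b x hx ihx =>
      obtain ⟨hx1, c, q, hq, hc'⟩ := ihx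
      obtain ⟨k, m, hm, hk⟩ := hM b
      have h3 : b • x = k • x + m * x := by
        rw [smul_eq_mul, hk, add_mul, Algebra.smul_def]
      refine ⟨?_, k • c, k • q + m * x, Q.add_mem (Q.smul_mem k hq) (hQ _ hm _ hx1), ?_⟩
      · rw [h3]
        exact M.add_mem (M.smul_mem k hx1) (hQM (hQ _ hm _ hx1))
      · rw [h3]
        have h4 : k • x = ∑ i ∈ Finset.range n, (k • c) i • e i + k • q := by
          rw [hc', smul_add, Finset.smul_sum]
          simp only [Pi.smul_apply, smul_assoc]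
        rw [h4, add_assoc]
  obtain ⟨-, c, q, hq, hc'⟩ := h2 _ h1
  exact hind n c q hq hc'

/-- For `f` without constant term, the powers of one of the variables are linearly
independent modulo `f`. -/
theorem exists_var {f : K[X][X]} (hf0 : (e0 f).eval 0 = 0) :
    ∃ t : K[X][X], ∀ (n : ℕ) (c : ℕ → K),
      ¬ f ∣ t ^ n - ∑ i ∈ Finset.range n, C (C (c i)) * t ^ i := by
  by_cases hd : f.natDegree = 0
  · obtain ⟨g, hg⟩ : ∃ g : K[X], f = C g := ⟨f.coeff 0, eq_C_of_natDegree_eq_zero hd⟩
    refine ⟨X, ?_⟩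
    intro n c h
    rw [hg, C_dvd_iff_dvd_coeff] at h
    have h1 := h n
    rw [coeff_sub, coeff_X_pow_self, finsetSum_coeff, Finset.sum_eq_zero, sub_zero] at h1
    · have h2 : g.eval 0 = 0 := by
        rw [hg, e0_C] at hf0
        exact hf0
      obtain ⟨q, hq⟩ := h1
      have h3 := congrArg (eval 0) hq
      rw [eval_mul, h2, zero_mul, eval_one] at h3
      exact one_ne_zero h3
    · intro i hi
      rw [coeff_C_mul, coeff_X_pow, if_neg (Finset.mem_range.1 hi).ne', mul_zero]
  · refine ⟨C X, ?_⟩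
    intro n c h
    have h1 : (C X : K[X][X]) ^ n - ∑ i ∈ Finset.range n, C (C (c i)) * (C X) ^ i =
        C (X ^ n - ∑ i ∈ Finset.range n, C (c i) * X ^ i) := by
      rw [C_sub, C_pow, map_sum]
      refine congrArg₂ _ rfl (Finset.sum_congr rfl fun i _ => ?_)
      rw [C_mul, C_pow]
    rw [h1] at h
    have h2 : (X ^ n - ∑ i ∈ Finset.range n, C (c i) * X ^ i : K[X]) ≠ 0 := by
      intro h3
      have h4 : coeff (X ^ n - ∑ i ∈ Finset.range n, C (c i) * X ^ i : K[X]) n =
        coeff (0 : K[X]) n := by rw [h3]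
      rw [coeff_sub, coeff_X_pow_self, finsetSum_coeff, Finset.sum_eq_zero, sub_zero,
        coeff_zero] at h4
      · exact one_ne_zero h4
      · intro i hi
        rw [coeff_C_mul, coeff_X_pow, if_neg (Finset.mem_range.1 hi).ne', mul_zero]
    have h3 : (C (X ^ n - ∑ i ∈ Finset.range n, C (c i) * X ^ i) : K[X][X]) ≠ 0 := by
      rwa [Ne, C_eq_zero]
    have h4 := natDegree_le_of_dvd h h3
    rw [natDegree_C] at h4
    exact hd (Nat.le_zero.1 h4)

theorem eq_Mt (a : A K) : ∃ (c : K) (r α : K[X][X]), (a : Matrix (Fin 2) (Fin 2) K[X][X]) =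
    Mt c r α ∧ Ok r α := A_le a.2

theorem e0_ex (q : K[X][X]) : (e0 q).eval 0 = (ex q).eval 0 := by
  have h : ((evalRingHom 0).comp e0 : K[X][X] →+* K) = (evalRingHom 0).comp ex := by
    apply Polynomial.ringHom_ext
    · intro p
      simp only [RingHom.comp_apply, e0_C, ex_C, coe_evalRingHom, eval_C]
    · simp only [RingHom.comp_apply, e0_X, ex_X, coe_evalRingHom, eval_X, eval_zero]
  exact congrArg (fun φ : K[X][X] →+* K => φ q) h

/-- The structure of the centralizer of a matrix with `r ≠ 0`. -/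
theorem structure_pos {r α : K[X][X]} (hr : r ≠ 0) :
    ∃ f g : K[X][X], f ≠ 0 ∧ (e0 f).eval 0 = 0 ∧
      (∀ t, Ok (f * t) (g * t) ∧ r * (g * t) = (f * t) * α) ∧
      ∀ s β, Ok s β → r * β = s * α → f ∣ s := by
  obtain ⟨r', α', d, hrel, hr1, ha1⟩ :=
    UniqueFactorizationMonoid.exists_reduced_factors r hr α
  have hd : d ≠ 0 := by
    rintro rfl
    rw [zero_mul] at hr1
    exact hr hr1.symm
  have hr' : r' ≠ 0 := by
    rintro rfl
    rw [mul_zero] at hr1
    exact hr hr1.symm
  have key : ∀ s β, Ok s β → r * β = s * α → ∃ t, s = r' * t ∧ (e0 α' = e0 r' ∨ e0 t = 0) ∧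
      (ex α' = 0 ∨ ex t = 0) := by
    intro s β hs h
    have h1 : r' * β = s * α' := by
      apply mul_left_cancel₀ hd
      rw [← mul_assoc, hr1, h, ← ha1]
      ring
    obtain ⟨t, ht⟩ : r' ∣ s := hrel.dvd_of_dvd_mul_right ⟨β, h1.symm⟩
    have h2 : β = t * α' := by
      apply mul_left_cancel₀ hr'
      rw [h1, ht]
      ring
    refine ⟨t, ht, ?_, ?_⟩
    · have h3 := hs.2.1
      rw [h2, ht, map_mul, map_mul] at h3
      have h4 : e0 t * (e0 α' - e0 r') = 0 := by linear_combination h3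
      rcases mul_eq_zero.1 h4 with h5 | h5
      · exact Or.inr h5
      · exact Or.inl (sub_eq_zero.1 h5)
    · have h3 := hs.2.2
      rw [h2, map_mul] at h3
      rcases mul_eq_zero.1 h3 with h5 | h5
      · exact Or.inr h5
      · exact Or.inl h5
  have hxx : ex (C X : K[X][X]) = 0 := by rw [ex_C, eval_X, C_0]
  have hcom : ∀ h t : K[X][X], r * (α' * h * t) = (r' * h * t) * α := by
    intro h t
    rw [← hr1, ← ha1]
    ring
  by_cases h1 : e0 α' = e0 r'
  · by_cases h2 : ex α' = 0
    · have h3 : (e0 r').eval 0 = 0 := by rw [← h1, e0_ex, h2, eval_zero]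
      refine ⟨r', α', hr', h3, ?_, ?_⟩
      · intro t
        refine ⟨⟨?_, ?_, ?_⟩, ?_⟩
        · rw [map_mul, eval_mul, h3, zero_mul]
        · rw [map_mul, map_mul, h1]
        · rw [map_mul, h2, zero_mul]
        · have := hcom 1 t
          simpa using this
      · intro s β hs h
        obtain ⟨t, ht, -, -⟩ := key s β hs h
        exact ⟨t, ht⟩
    · refine ⟨r' * C X, α' * C X, mul_ne_zero hr' (C_ne_zero.2 X_ne_zero), ?_, ?_, ?_⟩
      · rw [map_mul, e0_C, eval_mul, eval_X, mul_zero]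
      · intro t
        refine ⟨⟨?_, ?_, ?_⟩, hcom _ t⟩
        · rw [map_mul, map_mul, e0_C, eval_mul, eval_mul, eval_X, mul_zero, zero_mul]
        · rw [map_mul, map_mul, map_mul, map_mul, h1]
        · rw [map_mul, map_mul, hxx, mul_zero, zero_mul]
      · intro s β hs h
        obtain ⟨t, ht, -, h4⟩ := key s β hs h
        obtain ⟨t', ht'⟩ := exists_of_ex (h4.resolve_left h2)
        exact ⟨t', by rw [ht, ht']; ring⟩
  · by_cases h2 : ex α' = 0
    · refine ⟨r' * X, α' * X, mul_ne_zero hr' X_ne_zero, ?_, ?_, ?_⟩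
      · rw [map_mul, e0_X, mul_zero, eval_zero]
      · intro t
        refine ⟨⟨?_, ?_, ?_⟩, hcom _ t⟩
        · rw [map_mul, map_mul, e0_X, mul_zero, zero_mul, eval_zero]
        · rw [map_mul, map_mul, map_mul, map_mul, e0_X]
          ring
        · rw [map_mul, map_mul, h2, zero_mul, zero_mul]
      · intro s β hs h
        obtain ⟨t, ht, h4, -⟩ := key s β hs h
        obtain ⟨t', ht'⟩ := exists_of_e0 (h4.resolve_left h1)
        exact ⟨t', by rw [ht, ht']; ring⟩
    · refine ⟨r' * (C X * X), α' * (C X * X),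
        mul_ne_zero hr' (mul_ne_zero (C_ne_zero.2 X_ne_zero) X_ne_zero), ?_, ?_, ?_⟩
      · rw [map_mul, map_mul, e0_X, mul_zero, mul_zero, eval_zero]
      · intro t
        refine ⟨⟨?_, ?_, ?_⟩, hcom _ t⟩
        · rw [map_mul, map_mul, map_mul, e0_X, mul_zero, mul_zero, zero_mul, eval_zero]
        · have h5 : e0 (C X * X : K[X][X]) = 0 := by rw [map_mul, e0_X, mul_zero]
          rw [map_mul, map_mul, map_mul e0 (r' * (C X * X)), map_mul e0 r', h5]
          ring
        · rw [map_mul, map_mul, map_mul, hxx, zero_mul, mul_zero, zero_mul]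
      · intro s β hs h
        obtain ⟨t, ht, h4, h5⟩ := key s β hs h
        obtain ⟨t', ht'⟩ := exists_of_e0 (h4.resolve_left h1)
        have h6 : ex t' = 0 := by
          have h7 := h5.resolve_left h2
          rw [ht', map_mul, ex_X] at h7
          exact (mul_eq_zero.1 h7).resolve_right X_ne_zero
        obtain ⟨t'', ht''⟩ := exists_of_ex h6
        exact ⟨t'', by rw [ht, ht', ht'']; ring⟩

theorem Mt_00 (c : K) (r α : K[X][X]) : Mt c r α 0 0 = C (C c) + r := rfl

theorem Mt_01 (c : K) (r α : K[X][X]) : Mt c r α 0 1 = α := rfl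

theorem Mt_10 (c : K) (r α : K[X][X]) : Mt c r α 1 0 = 0 := rfl

theorem Mt_11 (c : K) (r α : K[X][X]) : Mt c r α 1 1 = C (C c) := rfl

/-- commuting elements of `A` -/
theorem commute_iff {a b : A K} {c d : K} {r α s β : K[X][X]}
    (ha : (a : Matrix (Fin 2) (Fin 2) K[X][X]) = Mt c r α)
    (hb : (b : Matrix (Fin 2) (Fin 2) K[X][X]) = Mt d s β) :
    a * b = b * a ↔ r * β = s * α := by
  rw [← Mt_commute (c := c) (d := d), ← ha, ← hb]
  constructor
  · intro h
    exact congrArg Subtype.val h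
  · intro h
    exact Subtype.ext h

theorem center_iff {a : A K} {c : K} {r α : K[X][X]}
    (ha : (a : Matrix (Fin 2) (Fin 2) K[X][X]) = Mt c r α) :
    a ∈ Subalgebra.center K (A K) ↔ r = 0 ∧ α = 0 := by
  rw [Subalgebra.mem_center_iff]
  constructor
  · intro h
    have hX := h ⟨_, X_mem⟩
    have hY := h ⟨_, Y_mem⟩
    have e1 : N (C X : K[X][X]) (C X) = Mt 0 (C X) (C X) := by rw [Mt_eq, map_zero, zero_add]
    have e2 : N (X : K[X][X]) 0 = Mt 0 X 0 := by rw [Mt_eq, map_zero, zero_add]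
    rw [commute_iff e1 ha] at hX
    rw [commute_iff e2 ha, mul_zero] at hY
    have hα : α = 0 := (mul_eq_zero.1 hY).resolve_left X_ne_zero
    rw [hα, mul_zero] at hX
    exact ⟨(mul_eq_zero.1 hX.symm).resolve_right (C_ne_zero.2 X_ne_zero), hα⟩
  · rintro ⟨rfl, rfl⟩ b
    obtain ⟨d, s, β, hb, -⟩ := eq_Mt b
    rw [commute_iff hb ha, mul_zero, zero_mul]

theorem finiteType : Algebra.FiniteType K (A K) := by
  rw [← Subalgebra.fg_iff_finiteType, Subalgebra.fg_def]
  exact ⟨{N (C X) (C X), N X 0}, Set.toFinite _, rfl⟩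

theorem center_eq_bot : Subalgebra.center K (A K) = ⊥ := by
  refine le_antisymm ?_ bot_le
  intro a ha
  obtain ⟨c, r, α, h1, -⟩ := eq_Mt a
  obtain ⟨rfl, rfl⟩ := (center_iff h1).1 ha
  rw [Algebra.mem_bot]
  refine ⟨c, ?_⟩
  apply Subtype.ext
  rw [h1, Mt_eq]
  have h0 : N (0 : K[X][X]) 0 = 0 := by
    ext i j
    fin_cases i <;> fin_cases j <;> simp [N]
  rw [h0, add_zero]
  rfl

theorem bot_ne_top : (⊥ : Subalgebra K (A K)) ≠ ⊤ := by
  intro h
  have h1 : (⟨_, Y_mem⟩ : A K) ∈ Subalgebra.center K (A K) := by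
    rw [center_eq_bot, h]
    exact Algebra.mem_top
  have e2 : N (X : K[X][X]) 0 = Mt 0 X 0 := by rw [Mt_eq, map_zero, zero_add]
  rw [center_iff e2] at h1
  exact X_ne_zero h1.1

theorem centralizer_comm {a : A K} (ha : a ∉ Subalgebra.center K (A K)) {b b' : A K}
    (hb : a * b = b * a) (hb' : a * b' = b' * a) : b * b' = b' * b := by
  obtain ⟨c, r, α, h1, -⟩ := eq_Mt a
  obtain ⟨d, s, β, h2, -⟩ := eq_Mt b
  obtain ⟨d', s', β', h3, -⟩ := eq_Mt b'
  rw [center_iff h1] at ha
  rw [commute_iff h1 h2] at hb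
  rw [commute_iff h1 h3] at hb'
  rw [commute_iff h2 h3]
  by_cases hr : r = 0
  · have hα : α ≠ 0 := fun h => ha ⟨hr, h⟩
    rw [hr, zero_mul] at hb hb'
    rw [(mul_eq_zero.1 hb.symm).resolve_right hα, (mul_eq_zero.1 hb'.symm).resolve_right hα]
    ring
  · apply mul_left_cancel₀ hr
    linear_combination s * hb' - s' * hb

/-- `f` divides the first entry of the elements with vanishing last entry. -/
theorem noeth_pos {a : A K} {c : K} {r α : K[X][X]}
    (ha : (a : Matrix (Fin 2) (Fin 2) K[X][X]) = Mt c r α) (hr : r ≠ 0) :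
    ¬ IsNoetherianRing (Subalgebra.centralizer K {a}) := by
  obtain ⟨f, g, hf, hf0, hfg, hdiv⟩ := structure_pos (α := α) hr
  obtain ⟨t, ht⟩ := exists_var hf0
  let B := Subalgebra.centralizer K ({a} : Set (A K))
  have hB : ∀ b : B, ∃ (d : K) (s β : K[X][X]),
      ((b : A K) : Matrix (Fin 2) (Fin 2) K[X][X]) = Mt d s β ∧ Ok s β ∧ r * β = s * α := by
    intro b
    obtain ⟨d, s, β, h1, h2⟩ := eq_Mt (b : A K)
    refine ⟨d, s, β, h1, h2, ?_⟩
    rw [← commute_iff ha h1]
    exact Subalgebra.mem_centralizer_iff K |>.1 b.2 a rfl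
  let M : Submodule K B :=
    { carrier := {b | ((b : A K) : Matrix (Fin 2) (Fin 2) K[X][X]) 1 1 = 0}
      add_mem' := by
        intro u v hu hv
        rw [Set.mem_ofPred_eq] at hu hv ⊢
        change ((u : A K) : Matrix (Fin 2) (Fin 2) K[X][X]) 1 1 +
          ((v : A K) : Matrix (Fin 2) (Fin 2) K[X][X]) 1 1 = 0
        rw [hu, hv, add_zero]
      zero_mem' := rfl
      smul_mem' := by
        intro k u hu
        rw [Set.mem_ofPred_eq] at hu ⊢
        change k • ((u : A K) : Matrix (Fin 2) (Fin 2) K[X][X]) 1 1 = 0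
        rw [hu, smul_zero] }
  let Q : Submodule K B :=
    { carrier := {b | ((b : A K) : Matrix (Fin 2) (Fin 2) K[X][X]) 1 1 = 0 ∧
        f * f ∣ ((b : A K) : Matrix (Fin 2) (Fin 2) K[X][X]) 0 0}
      add_mem' := by
        intro u v hu hv
        rw [Set.mem_ofPred_eq] at hu hv ⊢
        refine ⟨?_, ?_⟩
        · change ((u : A K) : Matrix (Fin 2) (Fin 2) K[X][X]) 1 1 +
            ((v : A K) : Matrix (Fin 2) (Fin 2) K[X][X]) 1 1 = 0
          rw [hu.1, hv.1, add_zero]
        · change f * f ∣ ((u : A K) : Matrix (Fin 2) (Fin 2) K[X][X]) 0 0 +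
            ((v : A K) : Matrix (Fin 2) (Fin 2) K[X][X]) 0 0
          exact dvd_add hu.2 hv.2
      zero_mem' := ⟨rfl, dvd_zero _⟩
      smul_mem' := by
        intro k u hu
        rw [Set.mem_ofPred_eq] at hu ⊢
        refine ⟨?_, ?_⟩
        · change k • ((u : A K) : Matrix (Fin 2) (Fin 2) K[X][X]) 1 1 = 0
          rw [hu.1, smul_zero]
        · change f * f ∣ k • ((u : A K) : Matrix (Fin 2) (Fin 2) K[X][X]) 0 0
          rw [Algebra.smul_def]
          exact Dvd.dvd.mul_left hu.2 _ }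
  have hMM : ∀ b ∈ M, ∃ s β : K[X][X],
      ((b : A K) : Matrix (Fin 2) (Fin 2) K[X][X]) = Mt 0 s β ∧ f ∣ s := by
    intro b hb
    obtain ⟨d, s, β, h1, h2, h3⟩ := hB b
    have h4 : ((b : A K) : Matrix (Fin 2) (Fin 2) K[X][X]) 1 1 = 0 := hb
    rw [h1, Mt_11, C_eq_zero, C_eq_zero] at h4
    subst h4
    exact ⟨s, β, h1, hdiv s β h2 h3⟩
  let e : ℕ → B := fun k => ⟨⟨Mt 0 (f * t ^ k) (g * t ^ k), mem_A (hfg _).1⟩, by
    rw [Subalgebra.mem_centralizer_iff]
    rintro _ rfl
    rw [commute_iff ha rfl]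
    exact (hfg _).2⟩
  refine not_noeth M Q ?_ ?_ ?_ e ?_ ?_
  · intro b
    obtain ⟨d, s, β, h1, h2, h3⟩ := hB b
    refine ⟨d, ⟨⟨Mt 0 s β, mem_A h2⟩, ?_⟩, ?_, ?_⟩
    · rw [Subalgebra.mem_centralizer_iff]
      rintro _ rfl
      rw [commute_iff ha rfl]
      exact h3
    · change Mt 0 s β 1 1 = 0
      rw [Mt_11, C_0, C_0]
    · apply Subtype.ext
      apply Subtype.ext
      change ((b : A K) : Matrix (Fin 2) (Fin 2) K[X][X]) =
        algebraMap K (Matrix (Fin 2) (Fin 2) K[X][X]) d + Mt 0 s β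
      rw [h1, Mt_eq, Mt_eq, map_zero, zero_add]
  · intro b hb
    exact hb.1
  · intro b hb b' hb'
    obtain ⟨s, β, h1, h2⟩ := hMM b hb
    obtain ⟨s', β', h3, h4⟩ := hMM b' hb'
    have h5 : ((b * b' : B) : Matrix (Fin 2) (Fin 2) K[X][X]) = Mt 0 s β * Mt 0 s' β' := by
      rw [← h1, ← h3]
      rfl
    rw [Mt_mul] at h5
    refine ⟨?_, ?_⟩
    · rw [h5, Mt_11, mul_zero, C_0, C_0]
    · rw [h5, Mt_00]
      have h6 : C (C (0 * 0)) + (C (C 0) * s' + C (C 0) * s + s * s') = s * s' := by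
        rw [mul_zero, C_0, C_0]
        ring
      rw [h6]
      exact mul_dvd_mul h2 h4
  · intro k
    change Mt 0 (f * t ^ k) (g * t ^ k) 1 1 = 0
    rw [Mt_11, C_0, C_0]
  · intro n c' q hq hn
    have h1 := hq.2
    have h2 : ((q : A K) : Matrix (Fin 2) (Fin 2) K[X][X]) 0 0 =
        f * (t ^ n - ∑ i ∈ Finset.range n, C (C (c' i)) * t ^ i) := by
      let ψ : B →ₗ[K] K[X][X] :=
        { toFun := fun b => ((b : A K) : Matrix (Fin 2) (Fin 2) K[X][X]) 0 0
          map_add' := fun u v => rfl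
          map_smul' := fun k u => rfl }
      have h3 : ∀ k, ψ (e k) = f * t ^ k := by
        intro k
        change Mt 0 (f * t ^ k) (g * t ^ k) 0 0 = f * t ^ k
        rw [Mt_00, C_0, C_0, zero_add]
      change ψ q = _
      have h5 := congrArg ψ hn
      rw [map_add, map_sum, h3] at h5
      have h6 : ∑ i ∈ Finset.range n, ψ (c' i • e i) =
          f * ∑ i ∈ Finset.range n, C (C (c' i)) * t ^ i := by
        rw [Finset.mul_sum]
        refine Finset.sum_congr rfl fun i _ => ?_
        rw [map_smul, h3, Algebra.smul_def]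
        have h4 : algebraMap K K[X][X] (c' i) = C (C (c' i)) := rfl
        rw [h4]
        ring
      rw [h6] at h5
      linear_combination -h5
    rw [h2] at h1
    exact ht n c' ((mul_dvd_mul_iff_left hf).1 h1)

theorem noeth_zero {a : A K} {c : K} {α : K[X][X]}
    (ha : (a : Matrix (Fin 2) (Fin 2) K[X][X]) = Mt c 0 α) (hα : α ≠ 0) :
    ¬ IsNoetherianRing (Subalgebra.centralizer K {a}) := by
  obtain ⟨t, ht⟩ := exists_var (f := (X : K[X][X])) (by rw [e0_X, eval_zero])
  let B := Subalgebra.centralizer K ({a} : Set (A K))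
  have hB : ∀ b : B, ∃ (d : K) (β : K[X][X]),
      ((b : A K) : Matrix (Fin 2) (Fin 2) K[X][X]) = Mt d 0 β ∧ Ok 0 β := by
    intro b
    obtain ⟨d, s, β, h1, h2⟩ := eq_Mt (b : A K)
    have h3 : a * (b : A K) = (b : A K) * a := Subalgebra.mem_centralizer_iff K |>.1 b.2 a rfl
    rw [commute_iff ha h1, zero_mul] at h3
    have h4 : s = 0 := (mul_eq_zero.1 h3.symm).resolve_right hα
    subst h4
    exact ⟨d, β, h1, h2⟩
  let M : Submodule K B :=
    { carrier := {b | ((b : A K) : Matrix (Fin 2) (Fin 2) K[X][X]) 1 1 = 0}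
      add_mem' := by
        intro u v hu hv
        rw [Set.mem_ofPred_eq] at hu hv ⊢
        change ((u : A K) : Matrix (Fin 2) (Fin 2) K[X][X]) 1 1 +
          ((v : A K) : Matrix (Fin 2) (Fin 2) K[X][X]) 1 1 = 0
        rw [hu, hv, add_zero]
      zero_mem' := rfl
      smul_mem' := by
        intro k u hu
        rw [Set.mem_ofPred_eq] at hu ⊢
        change k • ((u : A K) : Matrix (Fin 2) (Fin 2) K[X][X]) 1 1 = 0
        rw [hu, smul_zero] }
  have hMM : ∀ b ∈ M, ∃ β : K[X][X],
      ((b : A K) : Matrix (Fin 2) (Fin 2) K[X][X]) = Mt 0 0 β := by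
    intro b hb
    obtain ⟨d, β, h1, -⟩ := hB b
    have h4 : ((b : A K) : Matrix (Fin 2) (Fin 2) K[X][X]) 1 1 = 0 := hb
    rw [h1, Mt_11, C_eq_zero, C_eq_zero] at h4
    subst h4
    exact ⟨β, h1⟩
  have hok : ∀ k, Ok (0 : K[X][X]) (C X * X * t ^ k) := by
    intro k
    refine ⟨?_, ?_, ?_⟩
    · rw [map_zero, eval_zero]
    · rw [map_mul, map_mul, e0_X, mul_zero, zero_mul, map_zero]
    · rw [map_mul, map_mul, ex_C, eval_X, C_0, zero_mul, zero_mul]
  let e : ℕ → B := fun k => ⟨⟨Mt 0 0 (C X * X * t ^ k), mem_A (hok k)⟩, by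
    rw [Subalgebra.mem_centralizer_iff]
    rintro _ rfl
    rw [commute_iff ha rfl, zero_mul, zero_mul]⟩
  refine not_noeth M ⊥ ?_ bot_le ?_ e ?_ ?_
  · intro b
    obtain ⟨d, β, h1, h2⟩ := hB b
    refine ⟨d, ⟨⟨Mt 0 0 β, mem_A h2⟩, ?_⟩, ?_, ?_⟩
    · rw [Subalgebra.mem_centralizer_iff]
      rintro _ rfl
      rw [commute_iff ha rfl, zero_mul, zero_mul]
    · change Mt 0 0 β 1 1 = 0
      rw [Mt_11, C_0, C_0]
    · apply Subtype.ext
      apply Subtype.ext
      change ((b : A K) : Matrix (Fin 2) (Fin 2) K[X][X]) =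
        algebraMap K (Matrix (Fin 2) (Fin 2) K[X][X]) d + Mt 0 0 β
      rw [h1, Mt_eq, Mt_eq, map_zero, zero_add]
  · intro b hb b' hb'
    obtain ⟨β, h1⟩ := hMM b hb
    obtain ⟨β', h3⟩ := hMM b' hb'
    rw [Submodule.mem_bot]
    apply Subtype.ext
    apply Subtype.ext
    have h5 : ((b * b' : B) : Matrix (Fin 2) (Fin 2) K[X][X]) = Mt 0 0 β * Mt 0 0 β' := by
      rw [← h1, ← h3]
      rfl
    rw [Mt_mul] at h5
    have h6 : (C (C 0) * 0 + C (C 0) * 0 + 0 * 0 : K[X][X]) = 0 := by ring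
    have h7 : (C (C 0) + 0) * β' + C (C 0) * β = 0 := by
      rw [C_0, C_0]
      ring
    rw [h6, h7] at h5
    change ((b * b' : B) : Matrix (Fin 2) (Fin 2) K[X][X]) = 0
    rw [h5]
    ext i j
    fin_cases i <;> fin_cases j <;> simp [Mt]
  · intro k
    change Mt 0 0 (C X * X * t ^ k) 1 1 = 0
    rw [Mt_11, C_0, C_0]
  · intro n c' q hq hn
    rw [Submodule.mem_bot] at hq
    rw [hq, add_zero] at hn
    let ψ : B →ₗ[K] K[X][X] :=
      { toFun := fun b => ((b : A K) : Matrix (Fin 2) (Fin 2) K[X][X]) 0 1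
        map_add' := fun u v => rfl
        map_smul' := fun k u => rfl }
    have h3 : ∀ k, ψ (e k) = C X * X * t ^ k := fun k => rfl
    have h5 := congrArg ψ hn
    rw [map_sum, h3] at h5
    have h6 : ∑ i ∈ Finset.range n, ψ (c' i • e i) =
        C X * X * ∑ i ∈ Finset.range n, C (C (c' i)) * t ^ i := by
      rw [Finset.mul_sum]
      refine Finset.sum_congr rfl fun i _ => ?_
      rw [map_smul, h3, Algebra.smul_def]
      have h4 : algebraMap K K[X][X] (c' i) = C (C (c' i)) := rfl
      rw [h4]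
      ring
    rw [h6, ← sub_eq_zero, ← mul_sub] at h5
    have h5 : t ^ n - ∑ i ∈ Finset.range n, C (C (c' i)) * t ^ i = 0 :=
      (mul_eq_zero.1 h5).resolve_left (mul_ne_zero (C_ne_zero.2 X_ne_zero) X_ne_zero)
    apply ht n c'
    rw [h5]
    exact dvd_zero _

end

/-- For every field `K` there is a finitely generated central `K`-algebra `A ≠ K` such that every
proper centralizer of `A` is commutative and no proper centralizer of `A` is Noetherian. -/
theorem result (K : Type u) [Field K] :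
    ∃ (A : Type u) (_ : Ring A) (_ : Algebra K A), Algebra.FiniteType K A ∧
      Subalgebra.center K A = ⊥ ∧ (⊥ : Subalgebra K A) ≠ ⊤ ∧
      ∀ a : A, a ∉ Subalgebra.center K A →
        (∀ b ∈ Subalgebra.centralizer K {a}, ∀ c ∈ Subalgebra.centralizer K {a},
          b * c = c * b) ∧
        ¬ IsNoetherianRing (Subalgebra.centralizer K {a}) := by
  refine ⟨A K, inferInstance, inferInstance, finiteType, center_eq_bot, bot_ne_top, ?_⟩
  intro a ha
  refine ⟨?_, ?_⟩
  · intro b hb c hc
    rw [Subalgebra.mem_centralizer_iff] at hb hc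
    exact centralizer_comm ha (hb a rfl) (hc a rfl)
  · obtain ⟨c, r, α, h1, -⟩ := eq_Mt a
    rw [center_iff h1] at ha
    by_cases hr : r = 0
    · subst hr
      exact noeth_zero h1 fun h => ha ⟨rfl, h⟩
    · exact noeth_pos h1 hr

end Pool.Agent.Results.MP_dbb1e7_al.NoNoetherian
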